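import Pool.Agent.Lib.MP_5e7226_co.Basic

set_option autoImplicit false

/-! From directions which illuminate a compact set to points outside of it which illuminate it. -/

open Set Filter Topology

namespace Pool.Agent.Lib.MP_5e7226_co.HX

theorem points_of_dirs {V : Type*} [NormedAddCommGroup V] [NormedSpace ℝ V] [Nontrivial V]
    {K : Set V} (hK : IsCompact K) {N : ℕ}
    (h : ∃ v : Fin N → V, ∀ q ∈ frontier K, ∃ i, ∃ t : ℝ, 0 < t ∧ q + t • v i ∈ interior K) :
    ∃ p : Fin N → V, (∀ i, p i ∉ K) ∧ ∀ q ∈ frontier K, ∃ i, ∃ s : ℝ, 0 < s ∧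
      q + s • (q - p i) ∈ interior K := by
  classical
  obtain ⟨d, hd⟩ := h
  have hfr : IsCompact (frontier K) :=
    hK.of_isClosed_subset isClosed_frontier hK.isClosed.frontier_subset
  have key : ∀ᶠ ε : ℝ in 𝓝 0, ∀ q ∈ frontier K, ∃ i, d i ≠ 0 ∧ ∃ t : ℝ, 0 < t ∧
      q + t • (d i + ε • q) ∈ interior K := by
    apply hfr.eventually_forall_of_forall_eventually
    intro q hq
    obtain ⟨i, t, ht, hi⟩ := hd q hq
    have h0 : d i ≠ 0 := by
      intro h0
      rw [h0, smul_zero, add_zero] at hi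
      exact hq.2 hi
    have hc : Continuous (fun z : ℝ × V => z.2 + t • (d i + z.1 • z.2)) := by fun_prop
    have hev : ∀ᶠ z : ℝ × V in 𝓝 (0, q), z.2 + t • (d i + z.1 • z.2) ∈ interior K := by
      apply hc.continuousAt.eventually_mem
      simp only [zero_smul, add_zero]
      exact isOpen_interior.mem_nhds hi
    filter_upwards [hev] with z hz
    exact ⟨i, h0, t, ht, hz⟩
  obtain ⟨B, hB⟩ := hK.isBounded.exists_norm_le
  have hout : ∀ i, ∀ᶠ ε : ℝ in 𝓝[>] 0, d i ≠ 0 → -((1 / ε) • d i) ∉ K := by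
    intro i
    by_cases h0 : d i = 0
    · exact Filter.Eventually.of_forall fun ε h => absurd h0 h
    have hn : 0 < ‖d i‖ := norm_pos_iff.2 h0
    have hpos : 0 < ‖d i‖ / (|B| + 1) := by positivity
    filter_upwards [Ioo_mem_nhdsGT hpos] with ε hε _ hmem
    have h1 := hB _ hmem
    rw [norm_neg, norm_smul, Real.norm_eq_abs, abs_of_pos (by have := hε.1; positivity)] at h1
    have h2 := hε.2
    rw [lt_div_iff₀ (by positivity)] at h2
    have h3 : ‖d i‖ ≤ ε * B := by
      have := hε.1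
      rw [one_div, inv_mul_le_iff₀ this] at h1
      exact h1
    have h4 := le_abs_self B
    nlinarith [hε.1]
  obtain ⟨ε, ⟨h1, h2⟩, h3⟩ :=
    (((key.filter_mono nhdsWithin_le_nhds : ∀ᶠ ε : ℝ in 𝓝[>] 0, _).and
      (eventually_all.2 hout)).and self_mem_nhdsWithin).exists
  have hε : 0 < ε := h3
  obtain ⟨e, he⟩ : ∃ e : V, e ∉ K := by
    obtain ⟨v, hv⟩ := exists_ne (0 : V)
    have hn : 0 < ‖v‖ := norm_pos_iff.2 hv
    refine ⟨((|B| + 1) / ‖v‖) • v, fun hmem => ?_⟩
    have h1 := hB _ hmem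
    rw [norm_smul, Real.norm_eq_abs, abs_of_pos (by positivity), div_mul_cancel₀ _ hn.ne'] at h1
    have := le_abs_self B
    linarith
  refine ⟨fun i => if d i = 0 then e else -((1 / ε) • d i), ?_, ?_⟩
  · intro i
    by_cases h0 : d i = 0
    · simpa [h0] using he
    · simp only [h0, if_false]
      exact h2 i h0
  · intro q hq
    obtain ⟨i, h0, t, ht, hi⟩ := h1 q hq
    refine ⟨i, t * ε, mul_pos ht hε, ?_⟩
    simp only [h0, if_false]
    convert hi using 1
    have : t * ε * (1 / ε) = t := by field_simp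
    rw [sub_neg_eq_add, smul_add, smul_add, smul_smul, this, smul_smul]
    abel

end Pool.Agent.Lib.MP_5e7226_co.HX
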