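import Pool.Agent.Lib.MP_5e7226_co.DX.Gm0
import Pool.Agent.Lib.MP_5e7226_co.HT.Polar

set_option autoImplicit false

/-! Geometry of the dual pairs `GK b o K` for a convex body `K` with a point `o` in its interior; no symmetry is used. -/

namespace Pool.Agent.Lib.MP_5e7226_co.HX

open Finset
open Pool.Agent.Lib.MP_5e7226_co.DX (co fu GK swp Works pairing sum_co co_sum)

variable {d : ℕ}

/-- A convex body with a point `o` in its interior. -/
structure Body (o : EuclideanSpace ℝ (Fin d)) (K : Set (EuclideanSpace ℝ (Fin d))) : Prop where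
  convex : Convex ℝ K
  compact : IsCompact K
  ho : o ∈ interior K

theorem Body.int {o : EuclideanSpace ℝ (Fin d)} {K : Set (EuclideanSpace ℝ (Fin d))} (h : Body o K) :
    (interior K).Nonempty := ⟨o, h.ho⟩

theorem compact_GK (b : Module.Basis (Fin d) ℝ (EuclideanSpace ℝ (Fin d))) {o : EuclideanSpace ℝ (Fin d)}
    {K : Set (EuclideanSpace ℝ (Fin d))} (hK : Body o K) : IsCompact (GK b o K) := by
  set K' : Set (EuclideanSpace ℝ (Fin d)) := (fun x => x - o) '' K with hK'
  have h0 : (0 : EuclideanSpace ℝ (Fin d)) ∈ interior K' := by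
    have h1 : (Homeomorph.subRight o) '' interior K = interior ((Homeomorph.subRight o) '' K) :=
      (Homeomorph.subRight o).image_interior K
    have h2 : (0 : EuclideanSpace ℝ (Fin d)) ∈ (Homeomorph.subRight o) '' interior K :=
      ⟨o, hK.ho, by simp⟩
    rw [h1] at h2
    exact h2
  have hP : IsCompact (polarBody K') := by
    have : ProperSpace (EuclideanSpace ℝ (Fin d) →L[ℝ] ℝ) := FiniteDimensional.proper ℝ _
    exact Metric.isCompact_of_isClosed_isBounded (polarBody_closed K') (polarBody_bounded h0)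
  have hmem : ∀ f : EuclideanSpace ℝ (Fin d) →L[ℝ] ℝ, f ∈ polarBody K' ↔
      ∀ y ∈ K, f y - f o ≤ 1 := by
    intro f
    constructor
    · intro h y hy
      have := h (y - o) ⟨y, hy, rfl⟩
      rwa [map_sub] at this
    · rintro h _ ⟨y, hy, rfl⟩
      rw [map_sub]
      exact h y hy
  have hcl : IsClosed {q : EuclideanSpace ℝ (Fin d) × (EuclideanSpace ℝ (Fin d) →L[ℝ] ℝ) |
      q.2 q.1 - q.2 o = 1} := by
    refine isClosed_eq ?_ continuous_const
    exact (continuous_snd.clm_apply continuous_fst).sub (continuous_snd.clm_apply continuous_const)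
  have hc : IsCompact ((K ×ˢ polarBody K') ∩ {q : EuclideanSpace ℝ (Fin d) × (EuclideanSpace ℝ (Fin d) →L[ℝ] ℝ) |
      q.2 q.1 - q.2 o = 1}) := (hK.compact.prod hP).inter_right hcl
  have himg : GK b o K = (fun q : EuclideanSpace ℝ (Fin d) × (EuclideanSpace ℝ (Fin d) →L[ℝ] ℝ) =>
      (co b o q.1, fu b q.2)) '' ((K ×ˢ polarBody K') ∩ {q | q.2 q.1 - q.2 o = 1}) := by
    ext q
    constructor
    · rintro ⟨p, hp, f, hf, h1, rfl⟩
      exact ⟨(p, f), ⟨⟨hp, (hmem f).2 hf⟩, h1⟩, rfl⟩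
    · rintro ⟨⟨p, f⟩, ⟨⟨hp, hf⟩, h1⟩, rfl⟩
      exact ⟨p, hp, f, (hmem f).1 hf, h1, rfl⟩
  rw [himg]
  refine hc.image ?_
  refine Continuous.prodMk ?_ ?_
  · refine continuous_pi fun i => ?_
    have hb : Continuous (fun p : EuclideanSpace ℝ (Fin d) => b.coord i p) :=
      (b.coord i).continuous_of_finiteDimensional
    exact hb.comp (continuous_fst.sub continuous_const)
  · refine continuous_pi fun i => ?_
    exact continuous_snd.clm_apply continuous_const

theorem one_GK (b : Module.Basis (Fin d) ℝ (EuclideanSpace ℝ (Fin d))) {o : EuclideanSpace ℝ (Fin d)}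
    {K : Set (EuclideanSpace ℝ (Fin d))} : ∀ p ∈ GK b o K, ∑ i, p.2 i * p.1 i = 1 := by
  rintro _ ⟨p, _, f, _, h1, rfl⟩
  rw [← pairing b o f p]
  exact h1

/-- A symmetry `x ↦ A x` (in coordinates relative to `o`) of `K`. -/
theorem le_GK (b : Module.Basis (Fin d) ℝ (EuclideanSpace ℝ (Fin d))) {o : EuclideanSpace ℝ (Fin d)}
    {K : Set (EuclideanSpace ℝ (Fin d))} {A : (Fin d → ℝ) → Fin d → ℝ}
    (hA : ∀ p ∈ K, o + ∑ i, A (co b o p) i • b i ∈ K) :
    ∀ p ∈ GK b o K, ∀ q ∈ GK b o K, ∑ i, p.2 i * A q.1 i ≤ 1 := by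
  rintro _ ⟨_, _, f, hf, _, rfl⟩ _ ⟨p, hp, _, _, _, rfl⟩
  have h1 := hf _ (hA p hp)
  rw [pairing b o f, co_sum] at h1
  exact h1

/-- Vectors which work for all dual pairs give directions which illuminate `K`. -/
theorem illum_dirs {b : Module.Basis (Fin d) ℝ (EuclideanSpace ℝ (Fin d))}
    {o : EuclideanSpace ℝ (Fin d)} {K : Set (EuclideanSpace ℝ (Fin d))} (hK : Body o K)
    {ι : Type} (z : ι → Fin d → ℝ)
    (hz : ∀ q ∈ GK b o K, ∃ i, Works (GK b o K) q.1 (z i)) :
    ∃ v : ι → EuclideanSpace ℝ (Fin d), ∀ q ∈ frontier K, ∃ i, ∃ t : ℝ, 0 < t ∧ q + t • v i ∈ interior K := by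
  have hc : o ∈ interior K := hK.ho
  have hcl : closure (interior K) = K := by
    rw [hK.convex.closure_interior_eq_closure_of_nonempty_interior hK.int]
    exact hK.compact.isClosed.closure_eq
  -- a functional which is smaller than its value at `q` on the interior gives a dual pair
  have key : ∀ q ∈ K, ∀ f : EuclideanSpace ℝ (Fin d) →L[ℝ] ℝ, (∀ y ∈ interior K, f y < f q) →
      (co b o q, fu b ((f q - f o)⁻¹ • f)) ∈ GK b o K := by
    intro q hq f hf
    have h1 : 0 < f q - f o := sub_pos.2 (hf _ hc)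
    have h2 : ∀ y ∈ K, f y ≤ f q := by
      intro y hy
      rw [← hcl] at hy
      have h3 : closure (interior K) ⊆ {y | f y ≤ f q} :=
        closure_minimal (fun z hz => (hf z hz).le) (isClosed_le f.continuous continuous_const)
      exact h3 hy
    refine ⟨q, hq, (f q - f o)⁻¹ • f, ?_, ?_, rfl⟩
    · intro y hy
      have h3 := h2 y hy
      change (f q - f o)⁻¹ * f y - (f q - f o)⁻¹ * f o ≤ 1
      rw [← mul_sub, inv_mul_le_iff₀ h1]
      linarith
    · change (f q - f o)⁻¹ * f q - (f q - f o)⁻¹ * f o = 1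
      rw [← mul_sub]
      exact inv_mul_cancel₀ h1.ne'
  refine ⟨fun i => -∑ j, z i j • b j, ?_⟩
  intro q hq
  have hqK : q ∈ K := hK.compact.isClosed.frontier_subset hq
  have hqi : q ∉ interior K := fun h => hq.2 h
  obtain ⟨f₀, hf₀⟩ := geometric_hahn_banach_open_point hK.convex.interior isOpen_interior hqi
  obtain ⟨i, hi⟩ := hz _ (key q hqK f₀ hf₀)
  refine ⟨i, ?_⟩
  by_contra hcon
  obtain ⟨v, hv⟩ : ∃ v : EuclideanSpace ℝ (Fin d), v = -∑ j, z i j • b j := ⟨_, rfl⟩
  have hcon' : ∀ t : ℝ, 0 < t → q + t • v ∉ interior K := by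
    intro t ht h
    rw [hv] at h
    exact hcon ⟨t, ht, h⟩
  have hray : Convex ℝ {y : EuclideanSpace ℝ (Fin d) | ∃ t : ℝ, 0 < t ∧ y = q + t • v} := by
    rintro _ ⟨s, hs, rfl⟩ _ ⟨t, ht, rfl⟩ α β hα hβ hαβ
    refine ⟨α * s + β * t, ?_, ?_⟩
    · rcases hα.eq_or_lt with h | h
      · subst h
        have h1 : β = 1 := by linarith
        subst h1
        simpa using ht
      · have h1 : 0 < α * s := mul_pos h hs
        have h2 : 0 ≤ β * t := mul_nonneg hβ ht.le
        linarith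
    · have h1 : α • (q + s • v) + β • (q + t • v) = (α + β) • q + (α * s + β * t) • v := by
        module
      rw [h1, hαβ, one_smul]
  have hdisj : Disjoint (interior K) {y : EuclideanSpace ℝ (Fin d) | ∃ t : ℝ, 0 < t ∧ y = q + t • v} := by
    rw [Set.disjoint_left]
    rintro _ h1 ⟨t, ht, rfl⟩
    exact hcon' t ht h1
  obtain ⟨f, s, hf1, hf2⟩ := geometric_hahn_banach_open hK.convex.interior isOpen_interior hray hdisj
  have hf3 : ∀ t : ℝ, 0 < t → s ≤ f q + t * f v := by
    intro t ht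
    have h1 := hf2 _ ⟨t, ht, rfl⟩
    rwa [map_add, map_smul, smul_eq_mul] at h1
  have hq1 : f q ≤ s := by
    have h3 : closure (interior K) ⊆ {y | f y ≤ s} :=
      closure_minimal (fun z hz => (hf1 z hz).le) (isClosed_le f.continuous continuous_const)
    rw [hcl] at h3
    exact h3 hqK
  have hfv : 0 ≤ f v := by
    have h1 := hf3 1 one_pos
    linarith
  have hq2 : s ≤ f q := by
    refine le_of_forall_pos_le_add fun ε hε => ?_
    have h2 : 0 < f v + 1 := by linarith
    have h1 := hf3 (ε / (f v + 1)) (div_pos hε h2)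
    have h3 : ε / (f v + 1) * f v ≤ ε := by
      rw [div_mul_eq_mul_div, div_le_iff₀ h2]
      nlinarith
    linarith
  have hqs : f q = s := le_antisymm hq1 hq2
  have hpair := key q hqK f (fun y hy => by rw [hqs]; exact hf1 y hy)
  have h4 := hi _ hpair
  have h5 : 0 < f q - f o := by
    rw [hqs]
    exact sub_pos.2 (hf1 _ hc)
  have h6 : ∑ j, fu b ((f q - f o)⁻¹ • f) j * z i j = -((f q - f o)⁻¹ * f v) := by
    rw [hv, map_neg, map_sum, mul_neg, neg_neg, mul_sum]
    refine sum_congr rfl fun j _ => ?_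
    rw [map_smul, smul_eq_mul]
    change ((f q - f o)⁻¹ * f (b j)) * z i j = _
    ring
  rw [h6] at h4
  have h7 : 0 ≤ (f q - f o)⁻¹ * f v := mul_nonneg (inv_pos.2 h5).le hfv
  linarith

/-- The separating functional of a vector `z`. -/
noncomputable def wz (b : Module.Basis (Fin d) ℝ (EuclideanSpace ℝ (Fin d))) (z : Fin d → ℝ) :
    EuclideanSpace ℝ (Fin d) →L[ℝ] ℝ :=
  LinearMap.toContinuousLinearMap (∑ j, z j • b.coord j)

theorem wz_apply (b : Module.Basis (Fin d) ℝ (EuclideanSpace ℝ (Fin d))) (z : Fin d → ℝ)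
    (o p : EuclideanSpace ℝ (Fin d)) : wz b z (p - o) = ∑ j, co b o p j * z j := by
  unfold wz
  rw [LinearMap.coe_toContinuousLinearMap', LinearMap.sum_apply]
  refine sum_congr rfl fun j _ => ?_
  rw [LinearMap.smul_apply, smul_eq_mul, co, Module.Basis.coord_apply]
  ring

theorem fu_smul (b : Module.Basis (Fin d) ℝ (EuclideanSpace ℝ (Fin d)))
    (f : EuclideanSpace ℝ (Fin d) →L[ℝ] ℝ) (c : ℝ) : fu b (c • f) = fun i => c * fu b f i := by
  funext i
  simp only [fu, FunLike.coe_smul, Pi.smul_apply, smul_eq_mul]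

/-- A nonzero functional is not maximal at the centre. -/
theorem lt_max {o : EuclideanSpace ℝ (Fin d)} {K : Set (EuclideanSpace ℝ (Fin d))} (hK : Body o K)
    {f : EuclideanSpace ℝ (Fin d) →L[ℝ] ℝ}
    (hf : f ≠ 0) {p : EuclideanSpace ℝ (Fin d)} (hp : ∀ y ∈ K, f y ≤ f p) : f o < f p := by
  have hc := hK.ho
  obtain ⟨v, hv⟩ : ∃ v, f v ≠ 0 := by
    by_contra hcon
    push Not at hcon
    exact hf (by ext v; simpa using hcon v)
  obtain ⟨v, hv⟩ : ∃ v, 0 < f v := by
    rcases lt_or_gt_of_ne hv with h | h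
    · exact ⟨-v, by rw [map_neg]; linarith⟩
    · exact ⟨v, h⟩
  rw [mem_interior_iff_mem_nhds] at hc
  have hcont : Continuous (fun t : ℝ => o + t • v) := by fun_prop
  have h0 : (fun t : ℝ => o + t • v) 0 = o := by simp
  have hev : ∀ᶠ t : ℝ in nhds 0, o + t • v ∈ K := by
    have := hcont.continuousAt (x := (0 : ℝ))
    unfold ContinuousAt at this
    rw [h0] at this
    exact this hc
  have hev' : ∀ᶠ t : ℝ in nhdsWithin 0 (Set.Ioi 0), o + t • v ∈ K := hev.filter_mono nhdsWithin_le_nhds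
  obtain ⟨t, ht, hpos⟩ := (hev'.and self_mem_nhdsWithin).exists
  have h1 := hp _ ht
  rw [map_add, map_smul, smul_eq_mul] at h1
  have h2 : 0 < t * f v := mul_pos hpos hv
  linarith

/-- Vectors which work for all swapped dual pairs separate the faces of `K` from `o`. -/
theorem sep_of_works {b : Module.Basis (Fin d) ℝ (EuclideanSpace ℝ (Fin d))}
    {o : EuclideanSpace ℝ (Fin d)} {K : Set (EuclideanSpace ℝ (Fin d))} (hK : Body o K)
    {ι : Type} [Fintype ι] (z : ι → Fin d → ℝ)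
    (hz : ∀ q ∈ swp (GK b o K), ∃ i, Works (swp (GK b o K)) q.1 (z i)) {N : ℕ} (hN : Fintype.card ι ≤ N) :
    Sep ((fun x => x - o) '' K) N := by
  refine Sep.of_fintype (fun i => wz b (z i)) ?_ hN
  intro f hf
  have hne : K.Nonempty := hK.int.mono interior_subset
  obtain ⟨p₀, hp₀, hmax⟩ := hK.compact.exists_isMaxOn hne f.continuous.continuousOn
  have hmax' : ∀ y ∈ K, f y ≤ f p₀ := fun y hy => hmax hy
  have hlt := lt_max hK hf hmax'
  set c : ℝ := (f p₀ - f o)⁻¹ with hc
  have hc0 : 0 < c := inv_pos.2 (by linarith)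
  have hcm : c * (f p₀ - f o) = 1 := inv_mul_cancel₀ (by linarith)
  have key : ∀ p ∈ K, f p = f p₀ → (co b o p, fu b (c • f)) ∈ GK b o K := by
    intro p hp hfp
    refine ⟨p, hp, c • f, ?_, ?_, rfl⟩
    · intro y hy
      simp only [FunLike.coe_smul, Pi.smul_apply, smul_eq_mul]
      have := mul_le_mul_of_nonneg_left (hmax' y hy) hc0.le
      linarith
    · simp only [FunLike.coe_smul, Pi.smul_apply, smul_eq_mul]
      rw [hfp]
      linarith
  have hq : (fu b (c • f), co b o p₀) ∈ swp (GK b o K) := key p₀ hp₀ rfl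
  obtain ⟨i, hi⟩ := hz _ hq
  refine ⟨i, ?_⟩
  rintro x ⟨⟨p, hp, rfl⟩, hm⟩
  have hfp : f p = f p₀ := by
    apply le_antisymm (hmax' p hp)
    have := hm (p₀ - o) ⟨p₀, hp₀, rfl⟩
    simp only [map_sub] at this
    linarith
  have h3 := hi (co b o p) (key p hp hfp)
  rw [show (fun x => x - o) p = p - o from rfl, wz_apply]
  exact h3

end Pool.Agent.Lib.MP_5e7226_co.HX
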