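import Mathlib

set_option autoImplicit false

/-! The angle lemma for the icosahedral reflection group `H_3`: two vectors which are not separated by any of the 15
mirrors enclose an angle whose cosine is at least `0.794`. -/

namespace Pool.Agent.Lib.MP_5e7226_co.HX

/-- The inequality which is wanted for a pair of vectors of `ℝ³`. -/
def Near (x y z u v w : ℝ) : Prop :=
  0 ≤ x * u + y * v + z * w ∧
    (0.63 : ℝ) * (x ^ 2 + y ^ 2 + z ^ 2) * (u ^ 2 + v ^ 2 + w ^ 2) ≤ (x * u + y * v + z * w) ^ 2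

/-- Two nonnegative combinations of three vectors with large Gram entries. -/
theorem gram_near {g11 g12 g13 g22 g23 g33 n1 n2 n3 a1 a2 a3 b1 b2 b3 : ℝ}
    (hn1 : 0 ≤ n1) (hn2 : 0 ≤ n2) (hn3 : 0 ≤ n3)
    (h11 : 0.794 * (n1 * n1) ≤ g11) (h12 : 0.794 * (n1 * n2) ≤ g12) (h13 : 0.794 * (n1 * n3) ≤ g13)
    (h22 : 0.794 * (n2 * n2) ≤ g22) (h23 : 0.794 * (n2 * n3) ≤ g23) (h33 : 0.794 * (n3 * n3) ≤ g33)
    (k11 : g11 ≤ n1 * n1) (k12 : g12 ≤ n1 * n2) (k13 : g13 ≤ n1 * n3)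
    (k22 : g22 ≤ n2 * n2) (k23 : g23 ≤ n2 * n3) (k33 : g33 ≤ n3 * n3)
    (ha1 : 0 ≤ a1) (ha2 : 0 ≤ a2) (ha3 : 0 ≤ a3) (hb1 : 0 ≤ b1) (hb2 : 0 ≤ b2) (hb3 : 0 ≤ b3)
    {S A B : ℝ}
    (hS : S = a1 * b1 * g11 + (a1 * b2 + a2 * b1) * g12 + (a1 * b3 + a3 * b1) * g13 + a2 * b2 * g22 +
      (a2 * b3 + a3 * b2) * g23 + a3 * b3 * g33)
    (hA : A = a1 * a1 * g11 + (a1 * a2 + a2 * a1) * g12 + (a1 * a3 + a3 * a1) * g13 + a2 * a2 * g22 +
      (a2 * a3 + a3 * a2) * g23 + a3 * a3 * g33)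
    (hB : B = b1 * b1 * g11 + (b1 * b2 + b2 * b1) * g12 + (b1 * b3 + b3 * b1) * g13 + b2 * b2 * g22 +
      (b2 * b3 + b3 * b2) * g23 + b3 * b3 * g33) (hA0 : 0 ≤ A) (hB0 : 0 ≤ B) :
    0 ≤ S ∧ 0.63 * A * B ≤ S ^ 2 := by
  have e1 : 0.794 * ((a1 * n1 + a2 * n2 + a3 * n3) * (b1 * n1 + b2 * n2 + b3 * n3)) ≤ S := by
    rw [hS]
    have t11 := mul_le_mul_of_nonneg_left h11 (mul_nonneg ha1 hb1)
    have t12 := mul_le_mul_of_nonneg_left h12 (add_nonneg (mul_nonneg ha1 hb2) (mul_nonneg ha2 hb1))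
    have t13 := mul_le_mul_of_nonneg_left h13 (add_nonneg (mul_nonneg ha1 hb3) (mul_nonneg ha3 hb1))
    have t22 := mul_le_mul_of_nonneg_left h22 (mul_nonneg ha2 hb2)
    have t23 := mul_le_mul_of_nonneg_left h23 (add_nonneg (mul_nonneg ha2 hb3) (mul_nonneg ha3 hb2))
    have t33 := mul_le_mul_of_nonneg_left h33 (mul_nonneg ha3 hb3)
    linarith
  have e2 : A ≤ (a1 * n1 + a2 * n2 + a3 * n3) ^ 2 := by
    rw [hA]
    have t11 := mul_le_mul_of_nonneg_left k11 (mul_nonneg ha1 ha1)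
    have t12 := mul_le_mul_of_nonneg_left k12 (add_nonneg (mul_nonneg ha1 ha2) (mul_nonneg ha2 ha1))
    have t13 := mul_le_mul_of_nonneg_left k13 (add_nonneg (mul_nonneg ha1 ha3) (mul_nonneg ha3 ha1))
    have t22 := mul_le_mul_of_nonneg_left k22 (mul_nonneg ha2 ha2)
    have t23 := mul_le_mul_of_nonneg_left k23 (add_nonneg (mul_nonneg ha2 ha3) (mul_nonneg ha3 ha2))
    have t33 := mul_le_mul_of_nonneg_left k33 (mul_nonneg ha3 ha3)
    linarith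
  have e3 : B ≤ (b1 * n1 + b2 * n2 + b3 * n3) ^ 2 := by
    rw [hB]
    have t11 := mul_le_mul_of_nonneg_left k11 (mul_nonneg hb1 hb1)
    have t12 := mul_le_mul_of_nonneg_left k12 (add_nonneg (mul_nonneg hb1 hb2) (mul_nonneg hb2 hb1))
    have t13 := mul_le_mul_of_nonneg_left k13 (add_nonneg (mul_nonneg hb1 hb3) (mul_nonneg hb3 hb1))
    have t22 := mul_le_mul_of_nonneg_left k22 (mul_nonneg hb2 hb2)
    have t23 := mul_le_mul_of_nonneg_left k23 (add_nonneg (mul_nonneg hb2 hb3) (mul_nonneg hb3 hb2))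
    have t33 := mul_le_mul_of_nonneg_left k33 (mul_nonneg hb3 hb3)
    linarith
  set N := a1 * n1 + a2 * n2 + a3 * n3 with hN
  set M := b1 * n1 + b2 * n2 + b3 * n3 with hM
  have hN0 : 0 ≤ N := by rw [hN]; positivity
  have hM0 : 0 ≤ M := by rw [hM]; positivity
  have hS0 : 0 ≤ S := le_trans (by positivity) e1
  refine ⟨hS0, ?_⟩
  have e4 : A * B ≤ N ^ 2 * M ^ 2 := mul_le_mul e2 e3 hB0 (by positivity)
  have e5 : (0.794 * (N * M)) ^ 2 ≤ S ^ 2 := pow_le_pow_left₀ (by positivity) e1 2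
  have e6 : 0 ≤ A * B := mul_nonneg hA0 hB0
  nlinarith

/-- The golden ratio, with the bounds which are used. -/
structure Gold (φ : ℝ) : Prop where
  sq : φ ^ 2 = φ + 1
  lo : 1.618 ≤ φ
  hi : φ ≤ 1.6181

theorem near_C1 {φ : ℝ} (h : Gold φ) {a1 a2 a3 b1 b2 b3 : ℝ} (ha1 : 0 ≤ a1) (ha2 : 0 ≤ a2) (ha3 : 0 ≤ a3)
    (hb1 : 0 ≤ b1) (hb2 : 0 ≤ b2) (hb3 : 0 ≤ b3) :
    Near (a2) ((φ - 1) * a3) (a1 + φ * a2 + φ * a3)
      (b2) ((φ - 1) * b3) (b1 + φ * b2 + φ * b3) := by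
  have s := h.sq
  have l := h.lo
  have r := h.hi
  refine gram_near (g11 := (1)) (g12 := (φ)) (g13 := (φ)) (g22 := (2 + φ)) (g23 := (1 + φ)) (g33 := (3))
    (n1 := 1) (n2 := 1.9022) (n3 := 1.7321) (by norm_num) (by norm_num) (by norm_num) ?_ ?_ ?_ ?_ ?_ ?_ ?_ ?_ ?_ ?_ ?_ ?_
    ha1 ha2 ha3 hb1 hb2 hb3 ?_ ?_ ?_ (by positivity) (by positivity)
  iterate 12 (· norm_num <;> linarith)
  · linear_combination (1 * (a2 * b2) + 1 * (a2 * b3 + a3 * b2) + 2 * (a3 * b3)) * s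
  · linear_combination (1 * (a2 * a2) + 1 * (a2 * a3 + a3 * a2) + 2 * (a3 * a3)) * s
  · linear_combination (1 * (b2 * b2) + 1 * (b2 * b3 + b3 * b2) + 2 * (b3 * b3)) * s

theorem near_C2 {φ : ℝ} (h : Gold φ) {a1 a2 a3 b1 b2 b3 : ℝ} (ha1 : 0 ≤ a1) (ha2 : 0 ≤ a2) (ha3 : 0 ≤ a3)
    (hb1 : 0 ≤ b1) (hb2 : 0 ≤ b2) (hb3 : 0 ≤ b3) :
    Near (a2 + (φ - 1) * a3) ((φ - 1) * a1 + a3) (φ * a1 + φ * a2 + φ * a3)
      (b2 + (φ - 1) * b3) ((φ - 1) * b1 + b3) (φ * b1 + φ * b2 + φ * b3) := by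
  have s := h.sq
  have l := h.lo
  have r := h.hi
  refine gram_near (g11 := (3)) (g12 := (1 + φ)) (g13 := (2 * φ)) (g22 := (2 + φ)) (g23 := (2 * φ)) (g33 := (4))
    (n1 := 1.7321) (n2 := 1.9022) (n3 := 2) (by norm_num) (by norm_num) (by norm_num) ?_ ?_ ?_ ?_ ?_ ?_ ?_ ?_ ?_ ?_ ?_ ?_
    ha1 ha2 ha3 hb1 hb2 hb3 ?_ ?_ ?_ (by positivity) (by positivity)
  iterate 12 (· norm_num <;> linarith)
  · linear_combination (2 * (a1 * b1) + 1 * (a1 * b2 + a2 * b1) + 1 * (a1 * b3 + a3 * b1) + 1 * (a2 * b2) + 1 * (a2 * b3 + a3 * b2) + 2 * (a3 * b3)) * s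
  · linear_combination (2 * (a1 * a1) + 1 * (a1 * a2 + a2 * a1) + 1 * (a1 * a3 + a3 * a1) + 1 * (a2 * a2) + 1 * (a2 * a3 + a3 * a2) + 2 * (a3 * a3)) * s
  · linear_combination (2 * (b1 * b1) + 1 * (b1 * b2 + b2 * b1) + 1 * (b1 * b3 + b3 * b1) + 1 * (b2 * b2) + 1 * (b2 * b3 + b3 * b2) + 2 * (b3 * b3)) * s

theorem near_C3 {φ : ℝ} (h : Gold φ) {a1 a2 a3 b1 b2 b3 : ℝ} (ha1 : 0 ≤ a1) (ha2 : 0 ≤ a2) (ha3 : 0 ≤ a3)
    (hb1 : 0 ≤ b1) (hb2 : 0 ≤ b2) (hb3 : 0 ≤ b3) :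
    Near ((φ - 1) * a3) ((φ - 1) * a1 + φ * a2 + a3) (φ * a1 + a2 + φ * a3)
      ((φ - 1) * b3) ((φ - 1) * b1 + φ * b2 + b3) (φ * b1 + b2 + φ * b3) := by
  have s := h.sq
  have l := h.lo
  have r := h.hi
  refine gram_near (g11 := (3)) (g12 := (1 + φ)) (g13 := (2 * φ)) (g22 := (2 + φ)) (g23 := (2 * φ)) (g33 := (4))
    (n1 := 1.7321) (n2 := 1.9022) (n3 := 2) (by norm_num) (by norm_num) (by norm_num) ?_ ?_ ?_ ?_ ?_ ?_ ?_ ?_ ?_ ?_ ?_ ?_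
    ha1 ha2 ha3 hb1 hb2 hb3 ?_ ?_ ?_ (by positivity) (by positivity)
  iterate 12 (· norm_num <;> linarith)
  · linear_combination (2 * (a1 * b1) + 1 * (a1 * b2 + a2 * b1) + 1 * (a1 * b3 + a3 * b1) + 1 * (a2 * b2) + 2 * (a3 * b3)) * s
  · linear_combination (2 * (a1 * a1) + 1 * (a1 * a2 + a2 * a1) + 1 * (a1 * a3 + a3 * a1) + 1 * (a2 * a2) + 2 * (a3 * a3)) * s
  · linear_combination (2 * (b1 * b1) + 1 * (b1 * b2 + b2 * b1) + 1 * (b1 * b3 + b3 * b1) + 1 * (b2 * b2) + 2 * (b3 * b3)) * s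

theorem near_C4 {φ : ℝ} (h : Gold φ) {a1 a2 a3 b1 b2 b3 : ℝ} (ha1 : 0 ≤ a1) (ha2 : 0 ≤ a2) (ha3 : 0 ≤ a3)
    (hb1 : 0 ≤ b1) (hb2 : 0 ≤ b2) (hb3 : 0 ≤ b3) :
    Near (a1 + (φ - 1) * a2) (a1 + a2 + φ * a3) (a1 + φ * a2 + a3)
      (b1 + (φ - 1) * b2) (b1 + b2 + φ * b3) (b1 + φ * b2 + b3) := by
  have s := h.sq
  have l := h.lo
  have r := h.hi
  refine gram_near (g11 := (3)) (g12 := (2 * φ)) (g13 := (1 + φ)) (g22 := (4)) (g23 := (2 * φ)) (g33 := (2 + φ))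
    (n1 := 1.7321) (n2 := 2) (n3 := 1.9022) (by norm_num) (by norm_num) (by norm_num) ?_ ?_ ?_ ?_ ?_ ?_ ?_ ?_ ?_ ?_ ?_ ?_
    ha1 ha2 ha3 hb1 hb2 hb3 ?_ ?_ ?_ (by positivity) (by positivity)
  iterate 12 (· norm_num <;> linarith)
  · linear_combination (2 * (a2 * b2) + 1 * (a3 * b3)) * s
  · linear_combination (2 * (a2 * a2) + 1 * (a3 * a3)) * s
  · linear_combination (2 * (b2 * b2) + 1 * (b3 * b3)) * s

theorem near_C5 {φ : ℝ} (h : Gold φ) {a1 a2 a3 b1 b2 b3 : ℝ} (ha1 : 0 ≤ a1) (ha2 : 0 ≤ a2) (ha3 : 0 ≤ a3)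
    (hb1 : 0 ≤ b1) (hb2 : 0 ≤ b2) (hb3 : 0 ≤ b3) :
    Near (a1 + (φ - 1) * a2 + a3) (a1 + a2) (a1 + φ * a2 + φ * a3)
      (b1 + (φ - 1) * b2 + b3) (b1 + b2) (b1 + φ * b2 + φ * b3) := by
  have s := h.sq
  have l := h.lo
  have r := h.hi
  refine gram_near (g11 := (3)) (g12 := (2 * φ)) (g13 := (1 + φ)) (g22 := (4)) (g23 := (2 * φ)) (g33 := (2 + φ))
    (n1 := 1.7321) (n2 := 2) (n3 := 1.9022) (by norm_num) (by norm_num) (by norm_num) ?_ ?_ ?_ ?_ ?_ ?_ ?_ ?_ ?_ ?_ ?_ ?_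
    ha1 ha2 ha3 hb1 hb2 hb3 ?_ ?_ ?_ (by positivity) (by positivity)
  iterate 12 (· norm_num <;> linarith)
  · linear_combination (2 * (a2 * b2) + 1 * (a2 * b3 + a3 * b2) + 1 * (a3 * b3)) * s
  · linear_combination (2 * (a2 * a2) + 1 * (a2 * a3 + a3 * a2) + 1 * (a3 * a3)) * s
  · linear_combination (2 * (b2 * b2) + 1 * (b2 * b3 + b3 * b2) + 1 * (b3 * b3)) * s

theorem use_C1 {φ : ℝ} (h : Gold φ) {x y z u v w : ℝ}
    (p1 : 0 ≤ x) (p2 : 0 ≤ y) (p3 : (x + φ * y - (φ - 1) * z) ≤ 0)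
    (p1' : 0 ≤ u) (p2' : 0 ≤ v) (p3' : (u + φ * v - (φ - 1) * w) ≤ 0) : Near x y z u v w := by
  have s := h.sq
  have l := h.lo
  have key := near_C1 h (a1 := φ * (-(x + φ * y - (φ - 1) * z))) (a2 := x)
    (a3 := φ * y) (b1 := φ * (-(u + φ * v - (φ - 1) * w)))
    (b2 := u) (b3 := φ * v)
    (mul_nonneg (by linarith) (by linarith)) (by linarith) (mul_nonneg (by linarith) (by linarith))
    (mul_nonneg (by linarith) (by linarith)) (by linarith) (mul_nonneg (by linarith) (by linarith))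
  have e1 : x = (x) := by
    ring
  have e2 : y = (φ - 1) * (φ * y) := by
    linear_combination -(((1)) * y) * s
  have e3 : z = (φ * (-(x + φ * y - (φ - 1) * z))) + φ * (x) + φ * (φ * y) := by
    linear_combination -(((1)) * z) * s
  have f1 : u = (u) := by
    ring
  have f2 : v = (φ - 1) * (φ * v) := by
    linear_combination -(((1)) * v) * s
  have f3 : w = (φ * (-(u + φ * v - (φ - 1) * w))) + φ * (u) + φ * (φ * v) := by
    linear_combination -(((1)) * w) * s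
  rw [← e1, ← e2, ← e3, ← f1, ← f2, ← f3] at key
  exact key

theorem use_C2 {φ : ℝ} (h : Gold φ) {x y z u v w : ℝ}
    (p1 : (φ * x + (φ - 1) * y - z) ≤ 0) (p2 : 0 ≤ (x + φ * y - (φ - 1) * z)) (p3 : 0 ≤ (x - φ * y + (φ - 1) * z))
    (p1' : (φ * u + (φ - 1) * v - w) ≤ 0) (p2' : 0 ≤ (u + φ * v - (φ - 1) * w)) (p3' : 0 ≤ (u - φ * v + (φ - 1) * w)) : Near x y z u v w := by
  have s := h.sq
  have l := h.lo
  have key := near_C2 h (a1 := φ / 2 * (-(φ * x + (φ - 1) * y - z))) (a2 := (x - φ * y + (φ - 1) * z) / 2)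
    (a3 := φ / 2 * (x + φ * y - (φ - 1) * z)) (b1 := φ / 2 * (-(φ * u + (φ - 1) * v - w)))
    (b2 := (u - φ * v + (φ - 1) * w) / 2) (b3 := φ / 2 * (u + φ * v - (φ - 1) * w))
    (mul_nonneg (by linarith) (by linarith)) (by linarith) (mul_nonneg (by linarith) (by linarith))
    (mul_nonneg (by linarith) (by linarith)) (by linarith) (mul_nonneg (by linarith) (by linarith))
  have e1 : x = ((x - φ * y + (φ - 1) * z) / 2) + (φ - 1) * (φ / 2 * (x + φ * y - (φ - 1) * z)) := by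
    linear_combination -(((1/2)) * x + ((1/2) * φ) * y + ((1/2) + (-1/2) * φ) * z) * s
  have e2 : y = (φ - 1) * (φ / 2 * (-(φ * x + (φ - 1) * y - z))) + (φ / 2 * (x + φ * y - (φ - 1) * z)) := by
    linear_combination -(((-1/2) * φ) * x + ((1) + (-1/2) * φ) * y) * s
  have e3 : z = φ * (φ / 2 * (-(φ * x + (φ - 1) * y - z))) + φ * ((x - φ * y + (φ - 1) * z) / 2) + φ * (φ / 2 * (x + φ * y - (φ - 1) * z)) := by
    linear_combination -(((-1/2) * φ) * x + ((1) + (-1/2) * φ) * z) * s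
  have f1 : u = ((u - φ * v + (φ - 1) * w) / 2) + (φ - 1) * (φ / 2 * (u + φ * v - (φ - 1) * w)) := by
    linear_combination -(((1/2)) * u + ((1/2) * φ) * v + ((1/2) + (-1/2) * φ) * w) * s
  have f2 : v = (φ - 1) * (φ / 2 * (-(φ * u + (φ - 1) * v - w))) + (φ / 2 * (u + φ * v - (φ - 1) * w)) := by
    linear_combination -(((-1/2) * φ) * u + ((1) + (-1/2) * φ) * v) * s
  have f3 : w = φ * (φ / 2 * (-(φ * u + (φ - 1) * v - w))) + φ * ((u - φ * v + (φ - 1) * w) / 2) + φ * (φ / 2 * (u + φ * v - (φ - 1) * w)) := by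
    linear_combination -(((-1/2) * φ) * u + ((1) + (-1/2) * φ) * w) * s
  rw [← e1, ← e2, ← e3, ← f1, ← f2, ← f3] at key
  exact key

theorem use_C3 {φ : ℝ} (h : Gold φ) {x y z u v w : ℝ}
    (p1 : (φ * x + (φ - 1) * y - z) ≤ 0) (p2 : (x - φ * y + (φ - 1) * z) ≤ 0) (p3 : 0 ≤ x)
    (p1' : (φ * u + (φ - 1) * v - w) ≤ 0) (p2' : (u - φ * v + (φ - 1) * w) ≤ 0) (p3' : 0 ≤ u) : Near x y z u v w := by
  have s := h.sq
  have l := h.lo
  have key := near_C3 h (a1 := φ / 2 * (-(φ * x + (φ - 1) * y - z))) (a2 := (-(x - φ * y + (φ - 1) * z)) / 2)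
    (a3 := φ * x) (b1 := φ / 2 * (-(φ * u + (φ - 1) * v - w)))
    (b2 := (-(u - φ * v + (φ - 1) * w)) / 2) (b3 := φ * u)
    (mul_nonneg (by linarith) (by linarith)) (by linarith) (mul_nonneg (by linarith) (by linarith))
    (mul_nonneg (by linarith) (by linarith)) (by linarith) (mul_nonneg (by linarith) (by linarith))
  have e1 : x = (φ - 1) * (φ * x) := by
    linear_combination -(((1)) * x) * s
  have e2 : y = (φ - 1) * (φ / 2 * (-(φ * x + (φ - 1) * y - z))) + φ * ((-(x - φ * y + (φ - 1) * z)) / 2) + (φ * x) := by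
    linear_combination -(((-1/2) * φ) * x + ((1) + (-1/2) * φ) * y) * s
  have e3 : z = φ * (φ / 2 * (-(φ * x + (φ - 1) * y - z))) + ((-(x - φ * y + (φ - 1) * z)) / 2) + φ * (φ * x) := by
    linear_combination -(((1/2) + (-1/2) * φ) * x + ((-1/2) * φ) * y + ((1/2)) * z) * s
  have f1 : u = (φ - 1) * (φ * u) := by
    linear_combination -(((1)) * u) * s
  have f2 : v = (φ - 1) * (φ / 2 * (-(φ * u + (φ - 1) * v - w))) + φ * ((-(u - φ * v + (φ - 1) * w)) / 2) + (φ * u) := by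
    linear_combination -(((-1/2) * φ) * u + ((1) + (-1/2) * φ) * v) * s
  have f3 : w = φ * (φ / 2 * (-(φ * u + (φ - 1) * v - w))) + ((-(u - φ * v + (φ - 1) * w)) / 2) + φ * (φ * u) := by
    linear_combination -(((1/2) + (-1/2) * φ) * u + ((-1/2) * φ) * v + ((1/2)) * w) * s
  rw [← e1, ← e2, ← e3, ← f1, ← f2, ← f3] at key
  exact key

theorem use_C4 {φ : ℝ} (h : Gold φ) {x y z u v w : ℝ}
    (p1 : 0 ≤ (φ * x + (φ - 1) * y - z)) (p2 : ((φ - 1) * x + y - φ * z) ≤ 0) (p3 : (x - φ * y + (φ - 1) * z) ≤ 0)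
    (p1' : 0 ≤ (φ * u + (φ - 1) * v - w)) (p2' : ((φ - 1) * u + v - φ * w) ≤ 0) (p3' : (u - φ * v + (φ - 1) * w) ≤ 0) : Near x y z u v w := by
  have s := h.sq
  have l := h.lo
  have key := near_C4 h (a1 := φ / 2 * (φ * x + (φ - 1) * y - z)) (a2 := φ / 2 * (-((φ - 1) * x + y - φ * z)))
    (a3 := (-(x - φ * y + (φ - 1) * z)) / 2) (b1 := φ / 2 * (φ * u + (φ - 1) * v - w))
    (b2 := φ / 2 * (-((φ - 1) * u + v - φ * w))) (b3 := (-(u - φ * v + (φ - 1) * w)) / 2)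
    (mul_nonneg (by linarith) (by linarith)) (mul_nonneg (by linarith) (by linarith)) (by linarith)
    (mul_nonneg (by linarith) (by linarith)) (mul_nonneg (by linarith) (by linarith)) (by linarith)
  have e1 : x = (φ / 2 * (φ * x + (φ - 1) * y - z)) + (φ - 1) * (φ / 2 * (-((φ - 1) * x + y - φ * z))) := by
    linear_combination -(((1) + (-1/2) * φ) * x + ((1/2) * φ) * z) * s
  have e2 : y = (φ / 2 * (φ * x + (φ - 1) * y - z)) + (φ / 2 * (-((φ - 1) * x + y - φ * z))) + φ * ((-(x - φ * y + (φ - 1) * z)) / 2) := by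
    linear_combination -(((1)) * y) * s
  have e3 : z = (φ / 2 * (φ * x + (φ - 1) * y - z)) + φ * (φ / 2 * (-((φ - 1) * x + y - φ * z))) + ((-(x - φ * y + (φ - 1) * z)) / 2) := by
    linear_combination -(((1/2) + (-1/2) * φ) * x + ((1/2) + (1/2) * φ) * z) * s
  have f1 : u = (φ / 2 * (φ * u + (φ - 1) * v - w)) + (φ - 1) * (φ / 2 * (-((φ - 1) * u + v - φ * w))) := by
    linear_combination -(((1) + (-1/2) * φ) * u + ((1/2) * φ) * w) * s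
  have f2 : v = (φ / 2 * (φ * u + (φ - 1) * v - w)) + (φ / 2 * (-((φ - 1) * u + v - φ * w))) + φ * ((-(u - φ * v + (φ - 1) * w)) / 2) := by
    linear_combination -(((1)) * v) * s
  have f3 : w = (φ / 2 * (φ * u + (φ - 1) * v - w)) + φ * (φ / 2 * (-((φ - 1) * u + v - φ * w))) + ((-(u - φ * v + (φ - 1) * w)) / 2) := by
    linear_combination -(((1/2) + (-1/2) * φ) * u + ((1/2) + (1/2) * φ) * w) * s
  rw [← e1, ← e2, ← e3, ← f1, ← f2, ← f3] at key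
  exact key

theorem use_C5 {φ : ℝ} (h : Gold φ) {x y z u v w : ℝ}
    (p1 : 0 ≤ (φ * x + (φ - 1) * y - z)) (p2 : 0 ≤ (-φ * x + (φ - 1) * y + z)) (p3 : 0 ≤ (x - φ * y + (φ - 1) * z))
    (p1' : 0 ≤ (φ * u + (φ - 1) * v - w)) (p2' : 0 ≤ (-φ * u + (φ - 1) * v + w)) (p3' : 0 ≤ (u - φ * v + (φ - 1) * w)) : Near x y z u v w := by
  have s := h.sq
  have l := h.lo
  have key := near_C5 h (a1 := φ / 2 * (φ * x + (φ - 1) * y - z)) (a2 := φ / 2 * (-φ * x + (φ - 1) * y + z))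
    (a3 := (x - φ * y + (φ - 1) * z) / 2) (b1 := φ / 2 * (φ * u + (φ - 1) * v - w))
    (b2 := φ / 2 * (-φ * u + (φ - 1) * v + w)) (b3 := (u - φ * v + (φ - 1) * w) / 2)
    (mul_nonneg (by linarith) (by linarith)) (mul_nonneg (by linarith) (by linarith)) (by linarith)
    (mul_nonneg (by linarith) (by linarith)) (mul_nonneg (by linarith) (by linarith)) (by linarith)
  have e1 : x = (φ / 2 * (φ * x + (φ - 1) * y - z)) + (φ - 1) * (φ / 2 * (-φ * x + (φ - 1) * y + z)) + ((x - φ * y + (φ - 1) * z) / 2) := by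
    linear_combination -(((1/2) + (-1/2) * φ) * x + ((1/2) * φ) * y + ((1/2)) * z) * s
  have e2 : y = (φ / 2 * (φ * x + (φ - 1) * y - z)) + (φ / 2 * (-φ * x + (φ - 1) * y + z)) := by
    linear_combination -(((1)) * y) * s
  have e3 : z = (φ / 2 * (φ * x + (φ - 1) * y - z)) + φ * (φ / 2 * (-φ * x + (φ - 1) * y + z)) + φ * ((x - φ * y + (φ - 1) * z) / 2) := by
    linear_combination -(((-1/2) * φ) * x + ((1/2) * φ) * y + ((1)) * z) * s
  have f1 : u = (φ / 2 * (φ * u + (φ - 1) * v - w)) + (φ - 1) * (φ / 2 * (-φ * u + (φ - 1) * v + w)) + ((u - φ * v + (φ - 1) * w) / 2) := by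
    linear_combination -(((1/2) + (-1/2) * φ) * u + ((1/2) * φ) * v + ((1/2)) * w) * s
  have f2 : v = (φ / 2 * (φ * u + (φ - 1) * v - w)) + (φ / 2 * (-φ * u + (φ - 1) * v + w)) := by
    linear_combination -(((1)) * v) * s
  have f3 : w = (φ / 2 * (φ * u + (φ - 1) * v - w)) + φ * (φ / 2 * (-φ * u + (φ - 1) * v + w)) + φ * ((u - φ * v + (φ - 1) * w) / 2) := by
    linear_combination -(((-1/2) * φ) * u + ((1/2) * φ) * v + ((1)) * w) * s
  rw [← e1, ← e2, ← e3, ← f1, ← f2, ← f3] at key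
  exact key

/-- The mirror conditions in the first octant, in the corner at the third axis. -/
theorem corner {φ : ℝ} (h : Gold φ) {x y z u v w : ℝ} (hx : 0 ≤ x) (hy : 0 ≤ y) (hu : 0 ≤ u) (hv : 0 ≤ v)
    (h1 : 0 ≤ (x + φ * y - (φ - 1) * z) * (u + φ * v - (φ - 1) * w))
    (h2 : 0 ≤ (x - φ * y + (φ - 1) * z) * (u - φ * v + (φ - 1) * w))
    (h7 : φ * x + (φ - 1) * y - z ≤ 0) (h7' : φ * u + (φ - 1) * v - w ≤ 0) : Near x y z u v w := by
  rcases mul_nonneg_iff.1 h1 with ⟨p1, p1'⟩ | ⟨p1, p1'⟩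
  · rcases mul_nonneg_iff.1 h2 with ⟨p2, p2'⟩ | ⟨p2, p2'⟩
    · exact use_C2 h h7 p1 p2 h7' p1' p2'
    · exact use_C3 h h7 p2 hx h7' p2' hu
  · exact use_C1 h hx hy p1 hu hv p1'

theorem Near.rot {x y z u v w : ℝ} (h : Near y z x v w u) : Near x y z u v w := by
  obtain ⟨h1, h2⟩ := h
  refine ⟨by linarith, ?_⟩
  calc (0.63 : ℝ) * (x ^ 2 + y ^ 2 + z ^ 2) * (u ^ 2 + v ^ 2 + w ^ 2)
      = 0.63 * (y ^ 2 + z ^ 2 + x ^ 2) * (v ^ 2 + w ^ 2 + u ^ 2) := by ring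
    _ ≤ (y * v + z * w + x * u) ^ 2 := h2
    _ = (x * u + y * v + z * w) ^ 2 := by ring

/-- The mirror conditions in the central triangle. -/
theorem centre {φ : ℝ} (h : Gold φ) {x y z u v w : ℝ}
    (h2 : 0 ≤ (x - φ * y + (φ - 1) * z) * (u - φ * v + (φ - 1) * w))
    (h4 : 0 ≤ ((φ - 1) * x + y - φ * z) * ((φ - 1) * u + v - φ * w))
    (h9 : 0 ≤ (-φ * x + (φ - 1) * y + z) * (-φ * u + (φ - 1) * v + w))
    (h7 : 0 ≤ φ * x + (φ - 1) * y - z) (h7' : 0 ≤ φ * u + (φ - 1) * v - w)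
    (h3 : 0 ≤ φ * y + (φ - 1) * z - x) (h3' : 0 ≤ φ * v + (φ - 1) * w - u)
    (h5 : 0 ≤ φ * z + (φ - 1) * x - y) (h5' : 0 ≤ φ * w + (φ - 1) * u - v) : Near x y z u v w := by
  rcases mul_nonneg_iff.1 h2 with ⟨p2, p2'⟩ | ⟨p2, p2'⟩ <;>
  rcases mul_nonneg_iff.1 h4 with ⟨p4, p4'⟩ | ⟨p4, p4'⟩ <;>
  rcases mul_nonneg_iff.1 h9 with ⟨p9, p9'⟩ | ⟨p9, p9'⟩
  · exact use_C5 h h7 p9 p2 h7' p9' p2'
  · -- `m2, m4 ≥ 0`: rotate once
    exact Near.rot (use_C5 h (by linarith) (by linarith) (by linarith) (by linarith) (by linarith) (by linarith))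
  · exact use_C5 h h7 p9 p2 h7' p9' p2'
  · -- `m4, m9 ≤ 0`: rotate once
    exact Near.rot (use_C4 h (by linarith) (by linarith) (by linarith) (by linarith) (by linarith) (by linarith))
  · -- `m4, m9 ≥ 0`: rotate twice
    exact Near.rot (Near.rot (use_C5 h (by linarith) (by linarith) (by linarith) (by linarith) (by linarith) (by linarith)))
  · -- `m2, m9 ≤ 0`: rotate twice
    exact Near.rot (Near.rot (use_C4 h (by linarith) (by linarith) (by linarith) (by linarith) (by linarith) (by linarith)))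
  · exact use_C4 h h7 p4 p2 h7' p4' p2'
  · exact use_C4 h h7 p4 p2 h7' p4' p2'

end Pool.Agent.Lib.MP_5e7226_co.HX
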