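import Pool.Agent.Lib.MP_5e7226_co.HX.H3a

set_option autoImplicit false

/-! `H_3`: the angle lemma for all pairs of vectors, and seven vectors which work for every vector. -/

namespace Pool.Agent.Lib.MP_5e7226_co.HX

/-- The pair is not separated by any of the 15 mirrors of `H_3`. -/
structure Icos (φ x y z u v w : ℝ) : Prop where
  c1 : 0 ≤ x * u
  c2 : 0 ≤ y * v
  c3 : 0 ≤ z * w
  r1 : ∀ a b c : ℝ, (a = 1 ∨ a = -1) → (b = 1 ∨ b = -1) → (c = 1 ∨ c = -1) →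
    0 ≤ (a * x + b * φ * y + c * (φ - 1) * z) * (a * u + b * φ * v + c * (φ - 1) * w)
  r2 : ∀ a b c : ℝ, (a = 1 ∨ a = -1) → (b = 1 ∨ b = -1) → (c = 1 ∨ c = -1) →
    0 ≤ (a * (φ - 1) * x + b * y + c * φ * z) * (a * (φ - 1) * u + b * v + c * φ * w)
  r3 : ∀ a b c : ℝ, (a = 1 ∨ a = -1) → (b = 1 ∨ b = -1) → (c = 1 ∨ c = -1) →
    0 ≤ (a * φ * x + b * (φ - 1) * y + c * z) * (a * φ * u + b * (φ - 1) * v + c * w)

/-- The first octant. -/
theorem octant {φ : ℝ} (h : Gold φ) {x y z u v w : ℝ} (hx : 0 ≤ x) (hy : 0 ≤ y) (hz : 0 ≤ z) (hu : 0 ≤ u)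
    (hv : 0 ≤ v) (hw : 0 ≤ w) (hI : Icos φ x y z u v w) : Near x y z u v w := by
  have o1 : (1 : ℝ) = 1 ∨ (1 : ℝ) = -1 := Or.inl rfl
  have o2 : (-1 : ℝ) = 1 ∨ (-1 : ℝ) = -1 := Or.inr rfl
  have h1 : 0 ≤ (x + φ * y - (φ - 1) * z) * (u + φ * v - (φ - 1) * w) := by
    have := hI.r1 1 1 (-1) o1 o1 o2
    linarith [this]
  have h2 : 0 ≤ (x - φ * y + (φ - 1) * z) * (u - φ * v + (φ - 1) * w) := by
    have := hI.r1 1 (-1) 1 o1 o2 o1
    linarith [this]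
  have h3 : 0 ≤ (φ * y + (φ - 1) * z - x) * (φ * v + (φ - 1) * w - u) := by
    have := hI.r1 (-1) 1 1 o2 o1 o1
    linarith [this]
  have h4 : 0 ≤ ((φ - 1) * x + y - φ * z) * ((φ - 1) * u + v - φ * w) := by
    have := hI.r2 1 1 (-1) o1 o1 o2
    linarith [this]
  have h5 : 0 ≤ (φ * z + (φ - 1) * x - y) * (φ * w + (φ - 1) * u - v) := by
    have := hI.r2 1 (-1) 1 o1 o2 o1
    linarith [this]
  have h6 : 0 ≤ (y + φ * z - (φ - 1) * x) * (v + φ * w - (φ - 1) * u) := by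
    have := hI.r2 (-1) 1 1 o2 o1 o1
    linarith [this]
  have h7 : 0 ≤ (φ * x + (φ - 1) * y - z) * (φ * u + (φ - 1) * v - w) := by
    have := hI.r3 1 1 (-1) o1 o1 o2
    linarith [this]
  have h8 : 0 ≤ (z + φ * x - (φ - 1) * y) * (w + φ * u - (φ - 1) * v) := by
    have := hI.r3 1 (-1) 1 o1 o2 o1
    linarith [this]
  have h9 : 0 ≤ (-φ * x + (φ - 1) * y + z) * (-φ * u + (φ - 1) * v + w) := by
    have := hI.r3 (-1) 1 1 o2 o1 o1
    linarith [this]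
  rcases mul_nonneg_iff.1 h7 with ⟨p7, p7'⟩ | ⟨p7, p7'⟩
  · rcases mul_nonneg_iff.1 h3 with ⟨p3, p3'⟩ | ⟨p3, p3'⟩
    · rcases mul_nonneg_iff.1 h5 with ⟨p5, p5'⟩ | ⟨p5, p5'⟩
      · exact centre h h2 h4 h9 p7 p7' p3 p3' p5 p5'
      · refine Near.rot (Near.rot (corner h hz hx hw hu ?_ ?_ p5 p5'))
        · linarith [h8]
        · linarith [h9]
    · refine Near.rot (corner h hy hz hv hw ?_ ?_ p3 p3')
      · linarith [h6]
      · linarith [h4]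
  · exact corner h hx hy hu hv h1 h2 p7 p7'

/-- A common sign. -/
theorem common_sign {x u : ℝ} (h : 0 ≤ x * u) : ∃ e : ℝ, (e = 1 ∨ e = -1) ∧ 0 ≤ e * x ∧ 0 ≤ e * u := by
  rcases mul_nonneg_iff.1 h with ⟨h1, h2⟩ | ⟨h1, h2⟩
  · exact ⟨1, Or.inl rfl, by linarith, by linarith⟩
  · exact ⟨-1, Or.inr rfl, by linarith, by linarith⟩

theorem sign_mul {a e : ℝ} (ha : a = 1 ∨ a = -1) (he : e = 1 ∨ e = -1) : a * e = 1 ∨ a * e = -1 := by
  rcases ha with rfl | rfl <;> rcases he with rfl | rfl <;> norm_num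

theorem near_of_icos {φ : ℝ} (h : Gold φ) {x y z u v w : ℝ} (hI : Icos φ x y z u v w) : Near x y z u v w := by
  obtain ⟨e, he, ex, eu⟩ := common_sign hI.c1
  obtain ⟨f, hf, fy, fv⟩ := common_sign hI.c2
  obtain ⟨g, hg, gz, gw⟩ := common_sign hI.c3
  have e2 : e * e = 1 := by rcases he with rfl | rfl <;> norm_num
  have f2 : f * f = 1 := by rcases hf with rfl | rfl <;> norm_num
  have g2 : g * g = 1 := by rcases hg with rfl | rfl <;> norm_num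
  have hI' : Icos φ (e * x) (f * y) (g * z) (e * u) (f * v) (g * w) := by
    refine ⟨?_, ?_, ?_, ?_, ?_, ?_⟩
    · have := mul_nonneg ex eu
      exact this
    · exact mul_nonneg fy fv
    · exact mul_nonneg gz gw
    · intro a b c ha hb hc
      have := hI.r1 (a * e) (b * f) (c * g) (sign_mul ha he) (sign_mul hb hf) (sign_mul hc hg)
      linarith [this]
    · intro a b c ha hb hc
      have := hI.r2 (a * e) (b * f) (c * g) (sign_mul ha he) (sign_mul hb hf) (sign_mul hc hg)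
      linarith [this]
    · intro a b c ha hb hc
      have := hI.r3 (a * e) (b * f) (c * g) (sign_mul ha he) (sign_mul hb hf) (sign_mul hc hg)
      linarith [this]
  obtain ⟨n1, n2⟩ := octant h ex fy gz eu fv gw hI'
  have k1 : e * x * (e * u) + f * y * (f * v) + g * z * (g * w) = x * u + y * v + z * w := by
    linear_combination (x * u) * e2 + (y * v) * f2 + (z * w) * g2
  have k2 : (e * x) ^ 2 + (f * y) ^ 2 + (g * z) ^ 2 = x ^ 2 + y ^ 2 + z ^ 2 := by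
    linear_combination (x ^ 2) * e2 + (y ^ 2) * f2 + (z ^ 2) * g2
  have k3 : (e * u) ^ 2 + (f * v) ^ 2 + (g * w) ^ 2 = u ^ 2 + v ^ 2 + w ^ 2 := by
    linear_combination (u ^ 2) * e2 + (v ^ 2) * f2 + (w ^ 2) * g2
  rw [k1, k2, k3] at n2
  rw [k1] at n1
  exact ⟨n1, n2⟩

/-- If `u` is near `x` and `t` is close enough to `x`, then `⟨u, t⟩ > 0`. -/
theorem pos_of_near {x y z u v w r s t : ℝ} (h : Near x y z u v w) (hone : 0 < x * u + y * v + z * w)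
    (h1 : 0 ≤ x * r + y * s + z * t)
    (h2 : 0.38 * (x ^ 2 + y ^ 2 + z ^ 2) * (r ^ 2 + s ^ 2 + t ^ 2) ≤ (x * r + y * s + z * t) ^ 2)
    (h3 : 0 < r ^ 2 + s ^ 2 + t ^ 2) : 0 < u * r + v * s + w * t := by
  by_contra hneg
  push Not at hneg
  obtain ⟨n1, n2⟩ := h
  set X := x ^ 2 + y ^ 2 + z ^ 2 with hX
  set U := u ^ 2 + v ^ 2 + w ^ 2 with hU
  set Z := r ^ 2 + s ^ 2 + t ^ 2 with hZ
  set P := x * u + y * v + z * w with hP
  set Q := x * r + y * s + z * t with hQ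
  set R := u * r + v * s + w * t with hR
  have gram : 0 ≤ X * U * Z + 2 * P * Q * R - X * R ^ 2 - U * Q ^ 2 - Z * P ^ 2 := by
    have : X * U * Z + 2 * P * Q * R - X * R ^ 2 - U * Q ^ 2 - Z * P ^ 2 =
        (x * (v * t - w * s) - y * (u * t - w * r) + z * (u * s - v * r)) ^ 2 := by
      rw [hX, hU, hZ, hP, hQ, hR]; ring
    rw [this]; positivity
  have hX0 : 0 ≤ X := by rw [hX]; positivity
  have hU0 : 0 ≤ U := by rw [hU]; positivity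
  have hXp : 0 < X := by
    rcases hX0.eq_or_lt with h0 | h0
    · exfalso
      have hx : x = 0 := by nlinarith [sq_nonneg x, sq_nonneg y, sq_nonneg z]
      have hy : y = 0 := by nlinarith [sq_nonneg x, sq_nonneg y, sq_nonneg z]
      have hz : z = 0 := by nlinarith [sq_nonneg x, sq_nonneg y, sq_nonneg z]
      rw [hP, hx, hy, hz] at hone
      linarith
    · exact h0
  have hUp : 0 < U := by
    rcases hU0.eq_or_lt with h0 | h0
    · exfalso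
      have hx : u = 0 := by nlinarith [sq_nonneg u, sq_nonneg v, sq_nonneg w]
      have hy : v = 0 := by nlinarith [sq_nonneg u, sq_nonneg v, sq_nonneg w]
      have hz : w = 0 := by nlinarith [sq_nonneg u, sq_nonneg v, sq_nonneg w]
      rw [hP, hx, hy, hz] at hone
      linarith
    · exact h0
  have e1 : 0.38 * X * Z * U ≤ Q ^ 2 * U := mul_le_mul_of_nonneg_right h2 hU0
  have e2 : 0.63 * X * U * Z ≤ P ^ 2 * Z := mul_le_mul_of_nonneg_right n2 h3.le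
  have e3 : P * Q * R ≤ 0 := mul_nonpos_of_nonneg_of_nonpos (mul_nonneg hone.le h1) hneg
  have e4 : 0 ≤ X * R ^ 2 := by positivity
  have e5 : 0 < X * U * Z := by positivity
  nlinarith

/-- The seven vectors. -/
def vec7 : Fin 7 → Fin 3 → ℝ :=
  ![![0, 0, 1], ![0, 0, -1], ![1, 0, 0], ![1, 3, 0], ![-4, 3, 0], ![-4, -3, 0], ![1, -3, 0]]

/-- The plane: one of five vectors. -/
theorem cover5 (x y : ℝ) : (0 ≤ x ∧ 0.64 * (x ^ 2 + y ^ 2) ≤ x ^ 2) ∨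
    (0 ≤ x + 3 * y ∧ 0.64 * (x ^ 2 + y ^ 2) * 10 ≤ (x + 3 * y) ^ 2) ∨
    (0 ≤ -4 * x + 3 * y ∧ 0.64 * (x ^ 2 + y ^ 2) * 25 ≤ (-4 * x + 3 * y) ^ 2) ∨
    (0 ≤ -4 * x - 3 * y ∧ 0.64 * (x ^ 2 + y ^ 2) * 25 ≤ (-4 * x - 3 * y) ^ 2) ∨
    (0 ≤ x - 3 * y ∧ 0.64 * (x ^ 2 + y ^ 2) * 10 ≤ (x - 3 * y) ^ 2) := by
  rcases le_total 0 y with hy | hy
  · by_cases h1 : 4 * y ≤ 3 * x
    · left
      exact ⟨by linarith, by nlinarith⟩
    · push Not at h1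
      by_cases h2 : 0 ≤ 3 * x + y
      · right; left
        exact ⟨by linarith, by nlinarith [mul_nonneg h2 (show 0 ≤ 13 * y - 9 * x by linarith)]⟩
      · push Not at h2
        right; right; left
        exact ⟨by linarith, by nlinarith [mul_nonneg hy (show 0 ≤ -24 * x - 7 * y by linarith)]⟩
  · by_cases h1 : -4 * y ≤ 3 * x
    · left
      exact ⟨by linarith, by nlinarith⟩
    · push Not at h1
      by_cases h2 : 0 ≤ 3 * x - y
      · right; right; right; right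
        exact ⟨by linarith, by nlinarith [mul_nonneg h2 (show 0 ≤ -13 * y - 9 * x by linarith)]⟩
      · push Not at h2
        right; right; right; left
        exact ⟨by linarith, by nlinarith [mul_nonneg (show 0 ≤ -y by linarith) (show 0 ≤ -24 * x + 7 * y by linarith)]⟩

/-- Every vector is close to one of the seven. -/
theorem cover7 (x y z : ℝ) : ∃ i : Fin 7, 0 ≤ x * vec7 i 0 + y * vec7 i 1 + z * vec7 i 2 ∧
    0.38 * (x ^ 2 + y ^ 2 + z ^ 2) * (vec7 i 0 ^ 2 + vec7 i 1 ^ 2 + vec7 i 2 ^ 2) ≤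
      (x * vec7 i 0 + y * vec7 i 1 + z * vec7 i 2) ^ 2 ∧ 0 < vec7 i 0 ^ 2 + vec7 i 1 ^ 2 + vec7 i 2 ^ 2 := by
  have hp : 0 ≤ x ^ 2 + y ^ 2 := by positivity
  by_cases hz : 0.38 * (x ^ 2 + y ^ 2 + z ^ 2) ≤ z ^ 2
  · rcases le_total 0 z with h0 | h0
    · refine ⟨0, ?_, ?_, ?_⟩
      · show 0 ≤ x * 0 + y * 0 + z * 1
        linarith
      · show 0.38 * (x ^ 2 + y ^ 2 + z ^ 2) * (0 ^ 2 + 0 ^ 2 + 1 ^ 2) ≤ (x * 0 + y * 0 + z * 1) ^ 2
        linarith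
      · show (0 : ℝ) < 0 ^ 2 + 0 ^ 2 + 1 ^ 2
        norm_num
    · refine ⟨1, ?_, ?_, ?_⟩
      · show 0 ≤ x * 0 + y * 0 + z * (-1)
        linarith
      · show 0.38 * (x ^ 2 + y ^ 2 + z ^ 2) * (0 ^ 2 + 0 ^ 2 + (-1) ^ 2) ≤ (x * 0 + y * 0 + z * (-1)) ^ 2
        linarith
      · show (0 : ℝ) < 0 ^ 2 + 0 ^ 2 + (-1) ^ 2
        norm_num
  · push Not at hz
    rcases cover5 x y with ⟨h1, h2⟩ | ⟨h1, h2⟩ | ⟨h1, h2⟩ | ⟨h1, h2⟩ | ⟨h1, h2⟩
    · refine ⟨2, ?_, ?_, ?_⟩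
      · show 0 ≤ x * 1 + y * 0 + z * 0
        linarith
      · show 0.38 * (x ^ 2 + y ^ 2 + z ^ 2) * (1 ^ 2 + 0 ^ 2 + 0 ^ 2) ≤ (x * 1 + y * 0 + z * 0) ^ 2
        linarith
      · show (0 : ℝ) < 1 ^ 2 + 0 ^ 2 + 0 ^ 2
        norm_num
    · refine ⟨3, ?_, ?_, ?_⟩
      · show 0 ≤ x * 1 + y * 3 + z * 0
        linarith
      · show 0.38 * (x ^ 2 + y ^ 2 + z ^ 2) * (1 ^ 2 + 3 ^ 2 + 0 ^ 2) ≤ (x * 1 + y * 3 + z * 0) ^ 2
        linarith
      · show (0 : ℝ) < 1 ^ 2 + 3 ^ 2 + 0 ^ 2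
        norm_num
    · refine ⟨4, ?_, ?_, ?_⟩
      · show 0 ≤ x * (-4) + y * 3 + z * 0
        linarith
      · show 0.38 * (x ^ 2 + y ^ 2 + z ^ 2) * ((-4) ^ 2 + 3 ^ 2 + 0 ^ 2) ≤ (x * (-4) + y * 3 + z * 0) ^ 2
        linarith
      · show (0 : ℝ) < (-4) ^ 2 + 3 ^ 2 + 0 ^ 2
        norm_num
    · refine ⟨5, ?_, ?_, ?_⟩
      · show 0 ≤ x * (-4) + y * (-3) + z * 0
        linarith
      · show 0.38 * (x ^ 2 + y ^ 2 + z ^ 2) * ((-4) ^ 2 + (-3) ^ 2 + 0 ^ 2) ≤ (x * (-4) + y * (-3) + z * 0) ^ 2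
        linarith
      · show (0 : ℝ) < (-4) ^ 2 + (-3) ^ 2 + 0 ^ 2
        norm_num
    · refine ⟨6, ?_, ?_, ?_⟩
      · show 0 ≤ x * 1 + y * (-3) + z * 0
        linarith
      · show 0.38 * (x ^ 2 + y ^ 2 + z ^ 2) * (1 ^ 2 + (-3) ^ 2 + 0 ^ 2) ≤ (x * 1 + y * (-3) + z * 0) ^ 2
        linarith
      · show (0 : ℝ) < 1 ^ 2 + (-3) ^ 2 + 0 ^ 2
        norm_num

/-- **The core for `H_3`.** -/
theorem core_H3 {φ : ℝ} (h : Gold φ) {G : Set ((Fin 3 → ℝ) × (Fin 3 → ℝ))} (hone : ∀ p ∈ G, ∑ i, p.2 i * p.1 i = 1)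
    (hI : ∀ p ∈ G, Icos φ (p.1 0) (p.1 1) (p.1 2) (p.2 0) (p.2 1) (p.2 2)) :
    ∀ q ∈ G, ∃ i : Fin 7, ∀ u, (q.1, u) ∈ G → 0 < ∑ j, u j * vec7 i j := by
  intro q _
  obtain ⟨i, h1, h2, h3⟩ := cover7 (q.1 0) (q.1 1) (q.1 2)
  refine ⟨i, fun u hu => ?_⟩
  have h4 := hone _ hu
  simp only [Fin.sum_univ_three] at h4 ⊢
  exact pos_of_near (near_of_icos h (hI _ hu)) (by linarith) h1 h2 h3

end Pool.Agent.Lib.MP_5e7226_co.HX
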