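import Pool.Agent.Lib.MP_5e7226_co.HX.Geo
import Pool.Agent.Lib.MP_5e7226_co.HX.H3b

set_option autoImplicit false

/-! Bodies with the symmetries of the icosahedral reflection group `H_3`. -/

namespace Pool.Agent.Lib.MP_5e7226_co.HX

open Finset
open Pool.Agent.Lib.MP_5e7226_co.DX (co fu GK swp Works pairing sum_co co_sum)

/-- `1, φ, 1 / φ = φ - 1`. -/
noncomputable def gvec : Fin 3 → ℝ := ![1, (1 + Real.sqrt 5) / 2, (1 + Real.sqrt 5) / 2 - 1]

/-- The unit normals of the 15 mirrors of `H_3` (up to sign): the unit vectors and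
`(± 1, ± φ, ± 1 / φ) / 2` with its cyclic permutations. -/
def rootH3 : Set (Fin 3 → ℝ) :=
  {a | (∃ i, a = Pi.single i 1) ∨
    ∃ (k : Fin 3) (ε : Fin 3 → ℝ), (∀ i, ε i = 1 ∨ ε i = -1) ∧ a = fun i => ε i * gvec (i + k) / 2}

/-- `K` is invariant about `o` under the reflection with unit normal `a` (in the coordinates of the basis `b`). -/
def Refl {d : ℕ} (b : Module.Basis (Fin d) ℝ (EuclideanSpace ℝ (Fin d))) (o : EuclideanSpace ℝ (Fin d))
    (K : Set (EuclideanSpace ℝ (Fin d))) (a : Fin d → ℝ) : Prop :=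
  ∀ p ∈ K, o + ∑ i, (co b o p i - 2 * (∑ j, a j * co b o p j) * a i) • b i ∈ K

theorem gold : Gold ((1 + Real.sqrt 5) / 2) := by
  have h5 : Real.sqrt 5 ^ 2 = 5 := Real.sq_sqrt (by norm_num)
  have h0 : 0 ≤ Real.sqrt 5 := Real.sqrt_nonneg 5
  refine ⟨by linear_combination h5 / 4, ?_, ?_⟩
  · have : (2.236 : ℝ) ≤ Real.sqrt 5 := Real.le_sqrt_of_sq_le (by norm_num)
    linarith
  · have : Real.sqrt 5 ≤ 2.2362 := Real.sqrt_le_iff.2 ⟨by norm_num, by norm_num⟩
    linarith

/-- A pair of `GK b o K` is not separated by a mirror. -/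
theorem side_GK {d : ℕ} {b : Module.Basis (Fin d) ℝ (EuclideanSpace ℝ (Fin d))} {o : EuclideanSpace ℝ (Fin d)}
    {K : Set (EuclideanSpace ℝ (Fin d))} {a : Fin d → ℝ} (ha : Refl b o K a) :
    ∀ p ∈ GK b o K, 0 ≤ (∑ i, a i * p.1 i) * ∑ i, a i * p.2 i := by
  intro p hp
  have h1 := le_GK b (A := fun c i => c i - 2 * (∑ j, a j * c j) * a i) ha p hp p hp
  have h2 := one_GK b (K := K) p hp
  have h3 : ∑ i, p.2 i * (p.1 i - 2 * (∑ j, a j * p.1 j) * a i) =
      ∑ i, p.2 i * p.1 i - 2 * ((∑ i, a i * p.1 i) * ∑ i, a i * p.2 i) := by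
    generalize (∑ j, a j * p.1 j) = S
    have h4 : 2 * (S * ∑ i, a i * p.2 i) = ∑ i, 2 * (S * (a i * p.2 i)) := by
      rw [mul_sum, mul_sum]
    rw [h4, ← sum_sub_distrib]
    exact sum_congr rfl fun i _ => by ring
  rw [h3, h2] at h1
  linarith

theorem icos_of_side {x u : Fin 3 → ℝ}
    (h : ∀ a ∈ rootH3, 0 ≤ (∑ i, a i * x i) * ∑ i, a i * u i) :
    Icos ((1 + Real.sqrt 5) / 2) (x 0) (x 1) (x 2) (u 0) (u 1) (u 2) := by
  have hs : ∀ (a b c : ℝ), (a = 1 ∨ a = -1) → (b = 1 ∨ b = -1) → (c = 1 ∨ c = -1) →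
      ∀ i : Fin 3, (![a, b, c] : Fin 3 → ℝ) i = 1 ∨ (![a, b, c] : Fin 3 → ℝ) i = -1 := by
    intro a b c ha hb hc i
    fin_cases i
    · exact ha
    · exact hb
    · exact hc
  have hr : ∀ (k : Fin 3) (a b c : ℝ), (a = 1 ∨ a = -1) → (b = 1 ∨ b = -1) → (c = 1 ∨ c = -1) →
      0 ≤ (a * gvec (0 + k) / 2 * x 0 + b * gvec (1 + k) / 2 * x 1 + c * gvec (2 + k) / 2 * x 2) *
        (a * gvec (0 + k) / 2 * u 0 + b * gvec (1 + k) / 2 * u 1 + c * gvec (2 + k) / 2 * u 2) := by
    intro k a b c ha hb hc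
    have := h _ (Or.inr ⟨k, ![a, b, c], hs a b c ha hb hc, rfl⟩)
    simp only [Fin.sum_univ_three] at this
    exact this
  have hone : ∀ i : Fin 3, 0 ≤ x i * u i := by
    intro i
    have := h _ (Or.inl ⟨i, rfl⟩)
    simpa [Pi.single_apply] using this
  refine ⟨hone 0, hone 1, hone 2, ?_, ?_, ?_⟩
  · intro a b c ha hb hc
    have := hr 0 a b c ha hb hc
    have g0 : gvec (0 + 0) = 1 := rfl
    have g1 : gvec (1 + 0) = (1 + Real.sqrt 5) / 2 := rfl
    have g2 : gvec (2 + 0) = (1 + Real.sqrt 5) / 2 - 1 := rfl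
    rw [g0, g1, g2] at this
    linarith
  · intro a b c ha hb hc
    have := hr 2 a b c ha hb hc
    have g0 : gvec (0 + 2) = (1 + Real.sqrt 5) / 2 - 1 := rfl
    have g1 : gvec (1 + 2) = 1 := rfl
    have g2 : gvec (2 + 2) = (1 + Real.sqrt 5) / 2 := rfl
    rw [g0, g1, g2] at this
    linarith
  · intro a b c ha hb hc
    have := hr 1 a b c ha hb hc
    have g0 : gvec (0 + 1) = (1 + Real.sqrt 5) / 2 := rfl
    have g1 : gvec (1 + 1) = (1 + Real.sqrt 5) / 2 - 1 := rfl
    have g2 : gvec (2 + 1) = 1 := rfl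
    rw [g0, g1, g2] at this
    linarith

/-- The three coordinate reflections give the point reflection. -/
theorem neg_mem {b : Module.Basis (Fin 3) ℝ (EuclideanSpace ℝ (Fin 3))} {o : EuclideanSpace ℝ (Fin 3)}
    {K : Set (EuclideanSpace ℝ (Fin 3))} (h : ∀ a ∈ rootH3, Refl b o K a) {p : EuclideanSpace ℝ (Fin 3)}
    (hp : p ∈ K) : o + o - p ∈ K := by
  have key : ∀ (i : Fin 3) (c : Fin 3 → ℝ), o + ∑ j, c j • b j ∈ K →
      o + ∑ j, (if j = i then -c j else c j) • b j ∈ K := by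
    intro i c hc
    have h1 := h _ (Or.inl ⟨i, rfl⟩) _ hc
    rw [co_sum] at h1
    convert h1 using 4 with j
    by_cases hj : j = i
    · subst hj
      simp [Pi.single_apply]
      ring
    · simp [Pi.single_apply, hj]
  have h0 : o + ∑ j, co b o p j • b j ∈ K := by
    rw [sum_co]
    simpa using hp
  have h3 := key 2 _ (key 1 _ (key 0 _ h0))
  have h4 : (∑ j : Fin 3, (if j = 2 then -(if j = 1 then -(if j = 0 then -co b o p j else co b o p j)
      else (if j = 0 then -co b o p j else co b o p j)) else (if j = 1 then -(if j = 0 then -co b o p j else co b o p j)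
      else (if j = 0 then -co b o p j else co b o p j))) • b j) = -∑ j, co b o p j • b j := by
    rw [← sum_neg_distrib]
    refine sum_congr rfl fun j _ => ?_
    fin_cases j <;> simp
  rw [h4, sum_co] at h3
  have : o + -(p - o) = o + o - p := by abel
  rwa [this] at h3

theorem centre_mem {b : Module.Basis (Fin 3) ℝ (EuclideanSpace ℝ (Fin 3))} {o : EuclideanSpace ℝ (Fin 3)}
    {K : Set (EuclideanSpace ℝ (Fin 3))} (hc : Convex ℝ K) (hi : (interior K).Nonempty)
    (h : ∀ a ∈ rootH3, Refl b o K a) : o ∈ interior K := by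
  obtain ⟨p, hp⟩ := hi
  have h1 : IsOpen ((fun x => o + o - x) ⁻¹' interior K) :=
    isOpen_interior.preimage (by fun_prop)
  have h2 : (fun x => o + o - x) ⁻¹' interior K ⊆ K := by
    intro y hy
    have h3 := neg_mem h (interior_subset hy)
    simpa using h3
  have h4 : o + o - p ∈ interior K := by
    refine interior_maximal h2 h1 ?_
    show o + o - (o + o - p) ∈ interior K
    simpa using hp
  have h5 := hc.interior hp h4 (by norm_num : (0 : ℝ) ≤ 1 / 2) (by norm_num : (0 : ℝ) ≤ 1 / 2) (by norm_num)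
  convert h5 using 1
  module

/-- **Bodies with the symmetries of `H_3`.** -/
theorem main_H3 {b : Module.Basis (Fin 3) ℝ (EuclideanSpace ℝ (Fin 3))} {o : EuclideanSpace ℝ (Fin 3)}
    {K : Set (EuclideanSpace ℝ (Fin 3))} (hc : Convex ℝ K) (hk : IsCompact K) (hi : (interior K).Nonempty)
    (h : ∀ a ∈ rootH3, Refl b o K a) :
    (∃ v : Fin 7 → EuclideanSpace ℝ (Fin 3), ∀ q ∈ frontier K, ∃ i, ∃ t : ℝ, 0 < t ∧ q + t • v i ∈ interior K) ∧
      Sep ((fun x => x - o) '' K) 7 := by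
  have hK : Body o K := ⟨hc, hk, centre_mem hc hi h⟩
  have side : ∀ p ∈ GK b o K, ∀ a ∈ rootH3, 0 ≤ (∑ i, a i * p.1 i) * ∑ i, a i * p.2 i :=
    fun p hp a ha => side_GK (h a ha) p hp
  constructor
  · refine illum_dirs (b := b) hK vec7 ?_
    exact core_H3 gold (one_GK b) (fun p hp => icos_of_side (side p hp))
  · refine sep_of_works (b := b) hK vec7 ?_ (by simp)
    refine core_H3 gold ?_ ?_
    · intro p hp
      have := one_GK b _ hp
      rw [← this]
      exact sum_congr rfl fun i _ => mul_comm _ _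
    · intro p hp
      refine icos_of_side fun a ha => ?_
      have := side _ hp a ha
      rw [mul_comm] at this
      exact this

end Pool.Agent.Lib.MP_5e7226_co.HX
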